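import Mathlib

set_option autoImplicit false

namespace Pool.Agent.Results.MP_dd6e79_al.NoOscillation

open Filter

universe u

/-- The preorder on growth functions. -/
def Preceq (f g : ℕ → ℕ) : Prop := ∃ C : ℕ, 1 ≤ C ∧ ∀ n, f n ≤ C * g (C * n)

/-- Equivalence of growth functions. -/
def Equivalent (f g : ℕ → ℕ) : Prop := Preceq f g ∧ Preceq g f

/-- A semigroup given by finitely many generators and finitely many relations. -/
def FinitelyPresented (S : Type u) [Semigroup S] : Prop :=
  ∃ (k : ℕ) (φ : FreeSemigroup (Fin k) →ₙ* S)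
    (R : Finset (FreeSemigroup (Fin k) × FreeSemigroup (Fin k))),
    Function.Surjective φ ∧ ∀ u v, φ u = φ v ↔ conGen (fun a b => (a, b) ∈ R) u v

/-- The number of elements represented by nonempty words of length at most n in the family x. -/
noncomputable def growth {S : Type u} [Semigroup S] {m : ℕ} (x : Fin m → S) (n : ℕ) : ℕ :=
  Set.ncard {s : S | ∃ w : FreeSemigroup (Fin m), w.length ≤ n ∧ FreeSemigroup.lift x w = s}

theorem poly_le (K A d : ℕ) (hK : 1 ≤ K) : ∀ᶠ n in atTop, A * n ^ d ≤ 2 ^ (n / K) := by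
  have h1 : ∀ᶠ t : ℕ in atTop, A * K ^ d * (t + 1) ^ d ≤ 2 ^ t := by
    have h := (tendsto_pow_const_div_const_pow_of_one_lt d (r := 2) one_lt_two).comp
      (tendsto_add_atTop_nat 1)
    have hpos : (0 : ℝ) < 1 / (2 * (A * K ^ d : ℕ) + 1) := by positivity
    filter_upwards [h.eventually (gt_mem_nhds hpos)] with t ht
    simp only [Function.comp] at ht
    rw [div_lt_div_iff₀ (by positivity) (by positivity), pow_succ] at ht
    have h3 : (0 : ℝ) ≤ ((t + 1 : ℕ) : ℝ) ^ d := by positivity
    have h4 : ((A * K ^ d : ℕ) : ℝ) * ((t + 1 : ℕ) : ℝ) ^ d ≤ 2 ^ t := by nlinarith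
    exact_mod_cast h4
  filter_upwards [(Nat.tendsto_div_const_atTop (by omega : K ≠ 0)).eventually h1] with n hn
  refine le_trans ?_ hn
  rw [mul_assoc, ← mul_pow]
  refine Nat.mul_le_mul_left _ (Nat.pow_le_pow_left ?_ _)
  exact (Nat.lt_mul_div_succ n (by omega)).le

def Sub (g : ℕ → ℕ) : Prop := ∀ k, ∀ᶠ m in atTop, g m ≤ 2 ^ (m / (k + 1))

theorem exists_f2 (g : ℕ → ℕ → ℕ) (hm : ∀ i, Monotone (g i)) (hs : ∀ i, Sub (g i)) :
    ∃ f : ℕ → ℕ, StrictMono f ∧ Preceq f (fun n => 2 ^ n) ∧ ¬ Preceq (fun n => 2 ^ n) f ∧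
      ∀ i, ∀ᶠ m in atTop, g i m ≤ f m := by
  refine ⟨fun m => m + ∑ i ∈ Finset.range (m + 1), min (g i m) (2 ^ (m / (i + 1))),
    fun a b hab => ?_, ⟨2, by norm_num, fun n => ?_⟩, ?_, fun i => ?_⟩
  · refine add_lt_add_of_lt_of_le hab ?_
    refine le_trans (Finset.sum_le_sum fun i _ => ?_)
      (Finset.sum_le_sum_of_subset (Finset.range_mono (by omega)))
    exact min_le_min (hm i hab.le)
      (Nat.pow_le_pow_right (by norm_num) (Nat.div_le_div_right hab.le))
  · have h1 : ∑ i ∈ Finset.range (n + 1), min (g i n) (2 ^ (n / (i + 1))) ≤ (n + 1) * 2 ^ n := by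
      refine le_trans (Finset.sum_le_card_nsmul _ _ (2 ^ n) fun i _ => ?_) (by simp)
      exact (min_le_right _ _).trans (Nat.pow_le_pow_right (by norm_num) (Nat.div_le_self _ _))
    have h2 : n + 1 ≤ 2 ^ n := Nat.lt_two_pow_self
    have h3 : 2 ^ (2 * n) = 2 ^ n * 2 ^ n := by rw [two_mul, pow_add]
    simp only [h3]
    nlinarith
  · rintro ⟨C, hC, h⟩
    have e1 : ∀ᶠ n in atTop, ∀ i ∈ Finset.range (2 * C), g i (C * n) ≤ 2 ^ (n / 2) := by
      rw [eventually_all_finset]
      intro i _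
      have := (tendsto_id.const_mul_atTop' (by omega : 0 < C)).eventually (hs i (2 * C - 1))
      filter_upwards [this] with n hn
      have e : C * n / (2 * C - 1 + 1) = n / 2 := by
        rw [show 2 * C - 1 + 1 = C * 2 by omega, Nat.mul_div_mul_left _ _ (by omega)]
      simpa [e] using hn
    obtain ⟨n, hn1, hn2, hn3⟩ :=
      (e1.and ((poly_le 2 (4 * C ^ 2) 1 (by norm_num)).and (eventually_ge_atTop 1))).exists
    have h1 : ∑ i ∈ Finset.range (C * n + 1), min (g i (C * n)) (2 ^ (C * n / (i + 1))) ≤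
        (C * n + 1) * 2 ^ (n / 2) := by
      refine le_trans (Finset.sum_le_card_nsmul _ _ (2 ^ (n / 2)) fun i _ => ?_) (by simp)
      by_cases hi : i < 2 * C
      · exact (min_le_left _ _).trans (hn1 i (Finset.mem_range.2 hi))
      · refine (min_le_right _ _).trans (Nat.pow_le_pow_right (by norm_num) ?_)
        rw [← Nat.mul_div_mul_left n 2 (by omega : 0 < C)]
        exact Nat.div_le_div_left (by omega) (by omega)
    have h2 := h n
    have h3 : 2 ^ (n / 2) * 2 ^ (n / 2) ≤ 2 ^ n := by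
      rw [← pow_add]; exact Nat.pow_le_pow_right (by norm_num) (by omega)
    have h4 : 1 ≤ 2 ^ (n / 2) := Nat.one_le_two_pow
    simp only [pow_one] at hn2 h2
    set P := 2 ^ (n / 2)
    have h5 : 1 ≤ C * n := Nat.mul_pos hC hn3
    have h6 : C * n ≤ C * n * P := Nat.le_mul_of_pos_right _ h4
    have h7 : 2 ^ n ≤ C * (3 * (C * n) * P) := h2.trans (Nat.mul_le_mul_left _ (by nlinarith))
    have h8 : 4 * C ^ 2 * n * P ≤ P * P := Nat.mul_le_mul_right _ hn2
    have h9 : 0 < C ^ 2 * n * P := by positivity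
    nlinarith
  · filter_upwards [hs i i, eventually_ge_atTop i] with m h1 h2
    refine le_trans ?_ (Nat.le_add_left _ _)
    refine le_trans ?_ (Finset.single_le_sum
      (f := fun i => min (g i m) (2 ^ (m / (i + 1)))) (fun _ _ => Nat.zero_le _)
      (Finset.mem_range.2 (by omega : i < m + 1)))
    exact le_min le_rfl h1

theorem dichotomy (g : ℕ → ℕ) (hm : Monotone g)
    (hsub : ∀ a b, 1 ≤ a → g (a + b) + 1 ≤ (g a + 1) * (g b + 1)) :
    Sub g ∨ ∀ᶠ n in atTop, n ^ 3 ≤ g n := by
  have hpow : ∀ n q, 1 ≤ n → g (n * (q + 1)) + 1 ≤ (g n + 1) ^ (q + 1) := by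
    intro n q hn
    induction q with
    | zero => simp
    | succ q ih =>
      rw [show n * (q + 1 + 1) = n + n * (q + 1) by ring, pow_succ']
      exact (hsub _ _ hn).trans (Nat.mul_le_mul_left _ ih)
  by_cases h : Sub g
  · exact Or.inl h
  right
  unfold Sub at h
  push Not at h
  obtain ⟨k, hk⟩ := h
  filter_upwards [poly_le (2 * (k + 1)) 1 3 (by omega), eventually_ge_atTop 1] with n h1 hn
  rw [one_mul] at h1
  refine h1.trans ?_
  by_contra hc
  push Not at hc
  obtain ⟨m, hm1, hm2⟩ := (hk.and_eventually (eventually_ge_atTop n)).exists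
  set j := n / (2 * (k + 1)) with hj
  have a1 : j * (2 * (k + 1)) ≤ n := Nat.div_mul_le_self _ _
  have a2 : m ≤ n * (m / n + 1) := (Nat.lt_mul_div_succ m (by omega)).le
  have a3 : 1 ≤ m / n := (Nat.one_le_div_iff (by omega)).2 hm2
  have a4 : m / n * n ≤ m := Nat.div_mul_le_self _ _
  have a5 : g m + 1 ≤ 2 ^ (j * (m / n + 1)) := by
    rw [pow_mul]
    exact (Nat.succ_le_succ (hm a2)).trans ((hpow n _ hn).trans (Nat.pow_le_pow_left hc _))
  have a6 : j * (m / n + 1) ≤ m / (k + 1) := by
    rw [Nat.le_div_iff_mul_le (by omega)]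
    set q := m / n
    have := Nat.mul_le_mul_left q a1
    have h2 : j * (k + 1) ≤ q * (j * (k + 1)) := Nat.le_mul_of_pos_left _ a3
    nlinarith
  have a7 := Nat.pow_le_pow_right (by norm_num : 0 < 2) a6
  omega

theorem words_finite (m n : ℕ) : {w : FreeSemigroup (Fin m) | w.length ≤ n}.Finite := by
  refine Set.Finite.of_finite_image (f := fun w => w.head :: w.tail)
    ((List.finite_length_le (Fin m) n).subset ?_) ?_
  · rintro _ ⟨w, hw, rfl⟩
    simpa [FreeSemigroup.length] using hw
  · intro u _ v _ h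
    simp only [List.cons.injEq] at h
    exact FreeSemigroup.ext h.1 h.2

theorem split {α : Type} (w : FreeSemigroup α) (a : ℕ) (ha : 1 ≤ a) (hw : a < w.length) :
    ∃ u v : FreeSemigroup α, w = u * v ∧ u.length = a ∧ v.length + a = w.length := by
  obtain ⟨h, t⟩ := w
  simp only [FreeSemigroup.length] at hw
  have hl : (t.drop (a - 1)).length = t.length - (a - 1) := List.length_drop
  cases hd : t.drop (a - 1) with
  | nil => rw [hd] at hl; simp at hl; omega
  | cons h' t' =>
    refine ⟨⟨h, t.take (a - 1)⟩, ⟨h', t'⟩, ?_, ?_, ?_⟩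
    · rw [FreeSemigroup.mk_mul_mk, ← hd, List.take_append_drop]
    · simp only [FreeSemigroup.length, List.length_take]; omega
    · rw [hd] at hl
      simp only [FreeSemigroup.length, List.length_cons] at hl ⊢; omega

section
variable {S : Type u} [Semigroup S] {m : ℕ} (x : Fin m → S)

theorem ball_finite (n : ℕ) :
    {s : S | ∃ w : FreeSemigroup (Fin m), w.length ≤ n ∧ FreeSemigroup.lift x w = s}.Finite :=
  (words_finite m n).image (FreeSemigroup.lift x)

theorem growth_mono : Monotone (growth x) := fun _ b hab =>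
  Set.ncard_le_ncard (fun _ ⟨w, hw, e⟩ => ⟨w, hw.trans hab, e⟩) (ball_finite x b)

theorem growth_sub (a b : ℕ) (ha : 1 ≤ a) :
    growth x (a + b) + 1 ≤ (growth x a + 1) * (growth x b + 1) := by
  set B : ℕ → Set S := fun n =>
    {s : S | ∃ w : FreeSemigroup (Fin m), w.length ≤ n ∧ FreeSemigroup.lift x w = s} with hB
  have h1 : B (a + b) ⊆ B a ∪ (fun p : S × S => p.1 * p.2) '' (B a ×ˢ B b) := by
    rintro _ ⟨w, hw, rfl⟩
    by_cases h : w.length ≤ a
    · exact Or.inl ⟨w, h, rfl⟩
    · obtain ⟨u, v, rfl, hu, hv⟩ := split w a ha (by omega)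
      exact Or.inr ⟨(FreeSemigroup.lift x u, FreeSemigroup.lift x v),
        ⟨⟨u, hu.le, rfl⟩, ⟨v, by omega, rfl⟩⟩, (map_mul _ _ _).symm⟩
  have hf : (B a ×ˢ B b).Finite := (ball_finite x a).prod (ball_finite x b)
  have h2 := Set.ncard_le_ncard h1 ((ball_finite x a).union (hf.image _))
  have h3 := Set.ncard_union_le (B a) ((fun p : S × S => p.1 * p.2) '' (B a ×ˢ B b))
  have h4 := Set.ncard_image_le (f := fun p : S × S => p.1 * p.2) hf
  rw [Set.ncard_prod] at h4
  change growth x (a + b) ≤ _ at h2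
  change _ ≤ growth x a + _ at h3
  change _ ≤ growth x a * growth x b at h4
  nlinarith

end

instance (k : ℕ) : Countable (FreeSemigroup (Fin k)) :=
  Function.Injective.countable (f := fun w => (w.head, w.tail)) fun u v h => by
    simp only [Prod.mk.injEq] at h
    exact FreeSemigroup.ext h.1 h.2

/-- Finite data describing a presentation and a finite family of elements. -/
def Idx : Type := Σ k : ℕ, Σ m : ℕ,
  Finset (FreeSemigroup (Fin k) × FreeSemigroup (Fin k)) × (Fin m → FreeSemigroup (Fin k))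

instance : Countable Idx := by unfold Idx; infer_instance
instance : Nonempty Idx := ⟨⟨0, 0, ∅, Fin.elim0⟩⟩

noncomputable def G (i : Idx) (n : ℕ) : ℕ :=
  Set.ncard ((fun w => Quotient.mk (conGen (fun a b => (a, b) ∈ i.2.2.1)).toSetoid
    (FreeSemigroup.lift i.2.2.2 w)) '' {w : FreeSemigroup (Fin i.2.1) | w.length ≤ n})

theorem exists_G {S : Type u} [Semigroup S] (hS : FinitelyPresented S) {m : ℕ} (x : Fin m → S) :
    ∃ i, G i = growth x := by
  obtain ⟨k, φ, R, hφ, hR⟩ := hS
  choose w hw using fun j => hφ (x j)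
  refine ⟨⟨k, m, R, w⟩, funext fun n => ?_⟩
  let ψ : Quotient (conGen (fun a b => (a, b) ∈ R)).toSetoid → S :=
    Quotient.lift φ fun u v h => (hR u v).2 h
  have hψ : Function.Injective ψ := by
    rintro ⟨u⟩ ⟨v⟩ h
    exact Quotient.sound ((hR u v).1 h)
  have hl : ∀ u, φ (FreeSemigroup.lift w u) = FreeSemigroup.lift x u := fun u => by
    have : φ.comp (FreeSemigroup.lift w) = FreeSemigroup.lift x :=
      FreeSemigroup.hom_ext (funext fun j => by simp [hw])
    exact DFunLike.congr_fun this u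
  unfold G growth
  rw [← Set.ncard_image_of_injective _ hψ, Set.image_image]
  congr 1
  ext s
  simp only [Set.mem_image, Set.mem_ofPred_eq]
  exact exists_congr fun u => and_congr Iff.rfl (by rw [← hl u]; exact Iff.rfl)

/-- There are admissible bounds f1, f2 between which no finitely presented semigroup
oscillates. -/
theorem result : ∃ f₁ f₂ : ℕ → ℕ, StrictMono f₁ ∧ StrictMono f₂ ∧
    Preceq (fun n => n ^ 2) f₁ ∧ Preceq f₂ (fun n => 2 ^ n) ∧
    ¬ Equivalent f₁ (fun n => n ^ 2) ∧ ¬ Equivalent f₂ (fun n => 2 ^ n) ∧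
    ∀ (S : Type u) [Semigroup S], FinitelyPresented S → ∀ (m : ℕ) (x : Fin m → S),
      (∃ N, ∀ n, N ≤ n → f₁ n ≤ growth x n) ∨ (∃ N, ∀ n, N ≤ n → growth x n ≤ f₂ n) := by
  classical
  obtain ⟨e, he⟩ := exists_surjective_nat Idx
  obtain ⟨f, hf1, hf2, hf3, hf4⟩ := exists_f2
    (fun i => if Monotone (G (e i)) ∧ Sub (G (e i)) then G (e i) else fun _ => 0)
    (fun i => by
      split_ifs with h
      · exact h.1
      · exact monotone_const)
    (fun i => by
      split_ifs with h
      · exact h.2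
      · exact fun k => Eventually.of_forall fun _ => Nat.zero_le _)
  refine ⟨fun n => n ^ 3, f, Nat.pow_left_strictMono (by norm_num), hf1,
    ⟨1, le_rfl, fun n => ?_⟩, hf2, ?_, fun h => hf3 h.2, fun S _ hS m x => ?_⟩
  · simp only [one_mul]
    rcases Nat.eq_zero_or_pos n with rfl | hn
    · simp
    · exact Nat.pow_le_pow_right hn (by norm_num)
  · rintro ⟨⟨C, hC, h⟩, -⟩
    have h1 := h (C ^ 3 + 1)
    have h2 : 0 < (C ^ 3 + 1) ^ 2 := by positivity
    simp only at h1
    nlinarith
  · rcases dichotomy (growth x) (growth_mono x) (growth_sub x) with h | h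
    · right
      obtain ⟨i, hi⟩ := exists_G hS x
      obtain ⟨j, rfl⟩ := he i
      have := hf4 j
      simp only [hi, if_pos (And.intro (growth_mono x) h)] at this
      exact eventually_atTop.1 this
    · exact Or.inl (eventually_atTop.1 h)

end Pool.Agent.Results.MP_dd6e79_al.NoOscillation
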